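import Pool.Agent.Q181.TG.Stm1

set_option autoImplicit false

/-! # Project TG (helper181), job COMP: the components off a periodic path are finite (helper38) -/

namespace Pool.Agent.Q38.TG

open Pool.Agent.Q181.BD Pool.Agent.Q181.TG

variable {V : Type}

theorem w_zpow {W : V → V → ℤ} {T : Equiv.Perm V} (h : ∀ u v, W (T u) (T v) = W u v) (n : ℤ)
    (u v : V) : W ((T ^ n) u) ((T ^ n) v) = W u v := by
  induction n using Int.induction_on with
  | zero => rfl
  | succ n ih =>
    rw [add_comm, zpow_add, zpow_one, Equiv.Perm.mul_apply, Equiv.Perm.mul_apply, h, ih]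
  | pred n ih =>
    rw [← ih]
    have e : (-(n : ℤ)) = 1 + (-(n : ℤ) - 1) := by ring
    conv_rhs => rw [e, zpow_add, zpow_one, Equiv.Perm.mul_apply, Equiv.Perm.mul_apply, h]

theorem ci_symm {W : V → V → ℤ} (h : ∀ u v, W u v = W v u) {S : Set V} {u v : V}
    (huv : CI W S u v) : CI W S v u := by
  induction huv with
  | refl => exact Relation.ReflTransGen.refl
  | tail _ h2 ih =>
    exact Relation.ReflTransGen.head ⟨by rw [h]; exact h2.1, h2.2.2, h2.2.1⟩ ih

theorem ci_map {W : V → V → ℤ} {S : Set V} (f : V → V) (hW : ∀ u v, W (f u) (f v) = W u v)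
    (hS : ∀ v ∈ S, f v ∈ S) {u v : V} (huv : CI W S u v) : CI W S (f u) (f v) := by
  induction huv with
  | refl => exact Relation.ReflTransGen.refl
  | tail _ h2 ih => exact ih.tail ⟨by rw [hW]; exact h2.1, hS _ h2.2.1, hS _ h2.2.2⟩

theorem per_zpow {W : V → V → ℤ} {T : Equiv.Perm V} {z : ℤ → V} {d : ℤ} {L : ℕ}
    (h : Per W T z d L) (m j : ℤ) : (T ^ (d * m)) (z j) = z (j + m * L) := by
  induction m using Int.induction_on with
  | zero => simp
  | succ n ih =>
    rw [mul_add, mul_one, add_comm (d * (n : ℤ)) d, zpow_add, Equiv.Perm.mul_apply, ih, h.per]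
    congr 1
    ring
  | pred n ih =>
    have h1 := h.per (j + (-(n : ℤ) - 1) * L)
    have h2 : (T ^ (d * (-(n : ℤ)))) (z j) = (T ^ d) ((T ^ (d * (-(n : ℤ) - 1))) (z j)) := by
      rw [← Equiv.Perm.mul_apply, ← zpow_add]
      congr 2
      ring
    apply (T ^ d).injective
    rw [← h2, ih, h1]
    congr 1
    ring

theorem offs_inv {W : V → V → ℤ} {T : Equiv.Perm V} {z : ℤ → V} {d : ℤ} {L : ℕ}
    (h : Per W T z d L) (m : ℤ) (v : V) (hv : v ∈ Offs z) : (T ^ (d * m)) v ∈ Offs z := by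
  intro i hi
  apply hv (i - m * L)
  apply (T ^ (d * m)).injective
  rw [per_zpow h, ← hi]
  congr 1
  ring

theorem t_comp : S_per → S_twop → S_comp := by
  classical
  intro hper htwop V W c T hnet hst hTT z d L hz u hu
  by_contra hinf
  have hinf' : {w | CI W (Offs z) u w}.Infinite := hinf
  obtain ⟨F, hF⟩ := hst.cof
  choose n hn using hF
  -- two vertices of the same orbit
  have hmaps : Set.MapsTo (fun w => ((T ^ n w) w, n w % d)) {w | CI W (Offs z) u w}
      (↑(F ×ˢ Finset.Ico (0 : ℤ) |d|) : Set (V × ℤ)) := by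
    intro w _
    rw [Finset.mem_coe, Finset.mem_product, Finset.mem_Ico]
    exact ⟨hn w, Int.emod_nonneg _ hz.ne, Int.emod_lt_abs _ hz.ne⟩
  obtain ⟨x, hx, y, hy, hxy, hf⟩ := hinf'.exists_ne_map_eq_of_mapsTo hmaps (Finset.finite_toSet _)
  rw [Prod.mk.injEq] at hf
  obtain ⟨hf1, hf2⟩ := hf
  obtain ⟨k, hk⟩ := Int.ModEq.dvd (n := d) (a := n y) (b := n x) hf2.symm
  have hyx : y = (T ^ (d * k)) x := by
    apply (T ^ n y).injective
    rw [← hf1, ← Equiv.Perm.mul_apply, ← zpow_add, ← hk]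
    congr 2
    ring
  have hk0 : k ≠ 0 := by
    intro h0
    apply hxy
    rw [hyx, h0, mul_zero, zpow_zero]
    rfl
  have hs0 : d * k ≠ 0 := mul_ne_zero hz.ne hk0
  have hW := fun (m : ℤ) u v => w_zpow (W := W) (T := T) hst.inv (d * m) u v
  have hmap : ∀ (m : ℤ) (a b : V), CI W (Offs z) a b →
      CI W (Offs z) ((T ^ (d * m)) a) ((T ^ (d * m)) b) := fun m a b hab =>
    ci_map (T ^ (d * m)) (hW m) (fun v hv => offs_inv hz m v hv) hab
  have hmap' : ∀ (m : ℤ) (a b : V), CI W (Offs z) ((T ^ (d * m)) a) ((T ^ (d * m)) b) →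
      CI W (Offs z) a b := by
    intro m a b hab
    have h1 := hmap (-m) _ _ hab
    rwa [← Equiv.Perm.mul_apply, ← Equiv.Perm.mul_apply, ← zpow_add, mul_neg, neg_add_cancel,
      zpow_zero] at h1
  have hSoffs : ∀ w, CI W (Offs z) u w → w ∈ Offs z := by
    intro w hw
    rcases Relation.ReflTransGen.cases_tail hw with h | ⟨b, _, hb⟩
    · rw [h]
      exact hu
    · exact hb.2.2
  have hinv : ∀ v, (T ^ (d * k)) v ∈ {w | CI W (Offs z) u w} ↔ v ∈ {w | CI W (Offs z) u w} := by
    intro v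
    rw [hyx] at hy
    constructor
    · intro hv
      have h1 : CI W (Offs z) ((T ^ (d * k)) x) ((T ^ (d * k)) v) :=
        (ci_symm hst.symm hy).trans hv
      exact Relation.ReflTransGen.trans hx (hmap' k _ _ h1)
    · intro hv
      have h1 : CI W (Offs z) x v := (ci_symm hst.symm hx).trans hv
      exact Relation.ReflTransGen.trans hy (hmap k _ _ h1)
  have hin : ∀ a, CI W (Offs z) u a → ∀ b, CI W (Offs z) a b →
      CI W {w | CI W (Offs z) u w} a b := by
    intro a ha b hab
    induction hab with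
    | refl => exact Relation.ReflTransGen.refl
    | tail h1 h2 ih =>
      exact ih.tail ⟨h2.1, Relation.ReflTransGen.trans ha h1,
        Relation.ReflTransGen.trans ha (h1.tail h2)⟩
  obtain ⟨z', d', L', hz', hzS⟩ := hper V W T hst {w | CI W (Offs z) u w} (d * k) hs0
    ⟨u, Relation.ReflTransGen.refl⟩ hinv (fun a ha b hb =>
      hin a ha b ((ci_symm hst.symm ha).trans hb))
  exact hTT (htwop V W c T hnet hst z z' d d' L L' hz hz' fun i j => hSoffs _ (hzS j) i)

end Pool.Agent.Q38.TG
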